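import Mathlib

set_option autoImplicit false

namespace Pool.Agent.H.MP_afddf0_al

section Der
variable {k : Type} [Field k] {X : Type} {B : Type} [Ring B] [Algebra k B]

/-- twisted derivations -/
def IsDer (α β : FreeAlgebra k X →ₐ[k] B) (δ : FreeAlgebra k X →ₗ[k] B) : Prop :=
  ∀ f g, δ (f * g) = α f * δ g + δ f * β g

theorem IsDer.one {α β : FreeAlgebra k X →ₐ[k] B} {δ : FreeAlgebra k X →ₗ[k] B}
    (h : IsDer α β δ) : δ 1 = 0 := by
  have := h 1 1
  simp only [mul_one, map_one, one_mul] at this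
  exact left_eq_add.1 this

theorem IsDer.alg {α β : FreeAlgebra k X →ₐ[k] B} {δ : FreeAlgebra k X →ₗ[k] B}
    (h : IsDer α β δ) (c : k) : δ (algebraMap k _ c) = 0 := by
  rw [Algebra.algebraMap_eq_smul_one, map_smul, h.one, smul_zero]

theorem IsDer.ext {α β : FreeAlgebra k X →ₐ[k] B} {δ δ' : FreeAlgebra k X →ₗ[k] B}
    (h : IsDer α β δ) (h' : IsDer α β δ')
    (e : ∀ x, δ (FreeAlgebra.ι k x) = δ' (FreeAlgebra.ι k x)) (f : FreeAlgebra k X) :
    δ f = δ' f := by
  induction f using FreeAlgebra.induction with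
  | grade0 r => rw [h.alg, h'.alg]
  | grade1 x => exact e x
  | mul a b ha hb => rw [h, h', ha, hb]
  | add a b ha hb => rw [map_add, map_add, ha, hb]

theorem isDer_zero (α β : FreeAlgebra k X →ₐ[k] B) : IsDer α β 0 := fun _ _ => by simp

theorem exists_der (α β : FreeAlgebra k X →ₐ[k] B) (c : X → B) :
    ∃ δ : FreeAlgebra k X →ₗ[k] B, IsDer α β δ ∧ ∀ x, δ (FreeAlgebra.ι k x) = c x := by
  let Φ : FreeAlgebra k X →ₐ[k] Matrix (Fin 2) (Fin 2) B :=
    FreeAlgebra.lift k fun x => !![α (FreeAlgebra.ι k x), c x; 0, β (FreeAlgebra.ι k x)]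
  have h : ∀ f, Φ f 0 0 = α f ∧ Φ f 1 0 = 0 ∧ Φ f 1 1 = β f := by
    intro f
    induction f using FreeAlgebra.induction with
    | grade0 r =>
      simp [AlgHom.commutes, Matrix.algebraMap_matrix_apply]
    | grade1 x => simp [Φ]
    | mul a b ha hb =>
      simp [map_mul, Matrix.mul_apply, Fin.sum_univ_two, ha.1, ha.2.1, ha.2.2, hb.1, hb.2.1, hb.2.2]
    | add a b ha hb =>
      simp [map_add, ha.1, ha.2.1, ha.2.2, hb.1, hb.2.1, hb.2.2]
  refine ⟨{ toFun := fun f => Φ f 0 1, map_add' := fun a b => by simp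
            map_smul' := fun a b => by simp }, fun f g => ?_, fun x => by simp [Φ]⟩
  simp [map_mul, Matrix.mul_apply, Fin.sum_univ_two, (h f).1, (h g).2.2]

end Der

section Local
variable {k : Type} [Field k] {Y : Type}
open Polynomial

/-- a local Nakayama argument in a free algebra -/
theorem nak (ε : FreeAlgebra k Y →ₐ[k] k) (p r m1 m2 m3 m4 : FreeAlgebra k Y)
    (h1 : ε m1 = 0) (h2 : ε m2 = 0) (h3 : ε m3 = 0) (h4 : ε m4 = 0)
    (hp : p = m1 * p + m2 * r) (hr : r = m3 * p + m4 * r) : p = 0 := by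
  let θ : FreeAlgebra k Y →ₐ[k] (FreeAlgebra k Y)[X] := FreeAlgebra.lift k fun y =>
    C (algebraMap k _ (ε (FreeAlgebra.ι k y)))
      + C (FreeAlgebra.ι k y - algebraMap k _ (ε (FreeAlgebra.ι k y))) * X
  have c0 : ∀ f, (θ f).coeff 0 = algebraMap k _ (ε f) := by
    intro f
    induction f using FreeAlgebra.induction with
    | grade0 c => simp [AlgHom.commutes, Polynomial.algebraMap_apply]
    | grade1 x => simp [θ]
    | mul a b ha hb => rw [map_mul, mul_coeff_zero, ha, hb, map_mul, map_mul]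
    | add a b ha hb => rw [map_add, coeff_add, ha, hb, map_add, map_add]
  let E : (FreeAlgebra k Y)[X] →+* FreeAlgebra k Y :=
    eval₂RingHom' (RingHom.id _) 1 (fun a => Commute.one_right _)
  have hEC : ∀ a, E (C a) = a := fun a => by
    show eval₂ (RingHom.id _) 1 (C a) = a
    simp
  have hEX : E X = 1 := by
    show eval₂ (RingHom.id _) 1 X = 1
    simp
  have e1 : ∀ f, E (θ f) = f := by
    intro f
    induction f using FreeAlgebra.induction with
    | grade0 c => rw [AlgHom.commutes, Polynomial.algebraMap_apply, hEC]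
    | grade1 x =>
      simp only [θ, FreeAlgebra.lift_ι_apply, map_add, map_mul, hEC, hEX]
      simp
    | mul a b ha hb => rw [map_mul, map_mul, ha, hb]
    | add a b ha hb => rw [map_add, map_add, ha, hb]
  have key : ∀ (m u : FreeAlgebra k Y) (n : ℕ), ε m = 0 → (∀ j < n, (θ u).coeff j = 0) →
      (θ (m * u)).coeff n = 0 := by
    intro m u n hm hu
    rw [map_mul, coeff_mul]
    refine Finset.sum_eq_zero fun ij hij => ?_
    have hs : ij.1 + ij.2 = n := by simpa using hij
    rcases Nat.eq_zero_or_pos ij.1 with h0 | h0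
    · rw [h0, c0, hm, map_zero, zero_mul]
    · rw [hu ij.2 (by omega), mul_zero]
  have all : ∀ n, (θ p).coeff n = 0 ∧ (θ r).coeff n = 0 := by
    intro n
    induction n using Nat.strong_induction_on with
    | _ n ih =>
      constructor
      · rw [hp, map_add, coeff_add, key _ _ _ h1 (fun j hj => (ih j hj).1),
          key _ _ _ h2 (fun j hj => (ih j hj).2), add_zero]
      · rw [hr, map_add, coeff_add, key _ _ _ h3 (fun j hj => (ih j hj).1),
          key _ _ _ h4 (fun j hj => (ih j hj).2), add_zero]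
  have : θ p = 0 := Polynomial.ext fun n => by rw [(all n).1, coeff_zero]
  rw [← e1 p, this, map_zero]

/-- two elements of a free algebra mapping to two variables are right independent -/
theorem indep (ψ : FreeAlgebra k Y →ₐ[k] MvPolynomial (Fin 2) k) (a b p r : FreeAlgebra k Y)
    (ha : ψ a = MvPolynomial.X 0) (hb : ψ b = MvPolynomial.X 1) (h : a * p = b * r) : p = 0 := by
  let cc : MvPolynomial (Fin 2) k →ₐ[k] k := MvPolynomial.aeval fun _ => 0
  let ε : FreeAlgebra k Y →ₐ[k] k := cc.comp ψ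
  let eh : FreeAlgebra k Y →ₐ[k] FreeAlgebra k Y := (Algebra.ofId k _).comp ε
  have hεa : ε a = 0 := by simp [ε, cc, ha]
  have hεb : ε b = 0 := by simp [ε, cc, hb]
  have hd : ∀ i : Fin 2, ∃ d : FreeAlgebra k Y →ₗ[k] FreeAlgebra k Y,
      IsDer eh (AlgHom.id k _) d ∧ ∀ f, ε (d f) = cc (MvPolynomial.pderiv i (ψ f)) := by
    intro i
    obtain ⟨d, hd, hx⟩ := exists_der eh (AlgHom.id k _)
      (fun y => algebraMap k _ (cc (MvPolynomial.pderiv i (ψ (FreeAlgebra.ι k y)))))
    refine ⟨d, hd, fun f => ?_⟩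
    have k1 : IsDer ε ε (ε.toLinearMap ∘ₗ d) := fun f g => by
      simp [hd f g, eh]
    have k2 : IsDer ε ε (cc.toLinearMap ∘ₗ (MvPolynomial.pderiv i).toLinearMap ∘ₗ ψ.toLinearMap) :=
      fun f g => by
        simp [ε, Derivation.leibniz]
        ring
    exact k1.ext k2 (fun y => by simp [hx]) f
  obtain ⟨d0, hd0, e0⟩ := hd 0
  obtain ⟨d1, hd1, e1⟩ := hd 1
  have heha : eh a = 0 := by simp [eh, hεa]
  have hehb : eh b = 0 := by simp [eh, hεb]
  have q0 := congrArg d0 h
  have q1 := congrArg d1 h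
  rw [hd0, hd0, heha, hehb] at q0
  rw [hd1, hd1, heha, hehb] at q1
  simp only [zero_mul, zero_add, AlgHom.id_apply] at q0 q1
  refine nak ε p r (1 - d0 a) (d0 b) (d1 a) (1 - d1 b) ?_ ?_ ?_ ?_ ?_ ?_
  · rw [map_sub, e0, ha]; simp
  · rw [e0, hb]; simp [MvPolynomial.pderiv_X]
  · rw [e1, ha]; simp [MvPolynomial.pderiv_X]
  · rw [map_sub, e1, hb]; simp
  · rw [sub_mul, q0]; simp
  · rw [sub_mul, q1]; simp

end Local

section Ex

abbrev k2 : Type := ZMod 2
abbrev F : Type := FreeAlgebra k2 (Fin 4)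

noncomputable def t1 : F := FreeAlgebra.ι k2 0
noncomputable def t2 : F := FreeAlgebra.ι k2 1
noncomputable def t3 : F := FreeAlgebra.ι k2 2
noncomputable def s : F := FreeAlgebra.ι k2 3
noncomputable def z : F := (1 + t2 * t1) * s

theorem exD : ∃ D : F →ₗ[k2] F, (∀ f g, D (f * g) = f * D g + D f * g) ∧
    D t1 = t1 * z ∧ D t2 = -(z * t2) ∧ D t3 = -(t1 * s) ∧ D s = -(z * s) := by
  obtain ⟨D, hD, hx⟩ := exists_der (AlgHom.id k2 F) (AlgHom.id k2 F)
    ![t1 * z, -(z * t2), -(t1 * s), -(z * s)]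
  exact ⟨D, hD, hx 0, hx 1, hx 2, hx 3⟩

noncomputable def D : F →ₗ[k2] F := exD.choose
theorem D_mul (f g : F) : D (f * g) = f * D g + D f * g := exD.choose_spec.1 f g
theorem D1 : D t1 = t1 * z := exD.choose_spec.2.1
theorem D2 : D t2 = -(z * t2) := exD.choose_spec.2.2.1
theorem D3 : D t3 = -(t1 * s) := exD.choose_spec.2.2.2.1
theorem D4 : D s = -(z * s) := exD.choose_spec.2.2.2.2
theorem D_der : IsDer (AlgHom.id k2 F) (AlgHom.id k2 F) D := D_mul
theorem D_one : D 1 = 0 := D_der.one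

theorem two (f : F) : f + f = 0 := by
  rw [← two_smul k2 f, show (2 : k2) = 0 from rfl, zero_smul]

theorem Dz : D z = -(z * z) := by
  conv_lhs => rw [z]
  rw [D_mul, map_add, D_one, D_mul, D1, D2, D4]
  conv_rhs => rw [show z * z = z * ((1 + t2 * t1) * s) from rfl]
  have e : t2 * (t1 * z) * s = t2 * t1 * (z * s) := by noncomm_ring
  noncomm_ring

theorem gens {P : F → Prop} (h1 : P t1) (h2 : P t2) (h3 : P t3) (h4 : P s) (x : Fin 4) :
    P (FreeAlgebra.ι k2 x) := by
  fin_cases x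
  · exact h1
  · exact h2
  · exact h3
  · exact h4

theorem DD (f : F) : D (D f) = 0 := by
  have h : IsDer (AlgHom.id k2 F) (AlgHom.id k2 F) (D ∘ₗ D) := fun f g => by
    simp only [LinearMap.comp_apply, AlgHom.id_apply, D_mul, map_add]
    have := two (D f * D g)
    linear_combination (norm := noncomm_ring) this
  refine h.ext (isDer_zero _ _) (gens (P := fun f => (D ∘ₗ D) f = (0 : F →ₗ[k2] F) f) ?_ ?_ ?_ ?_) f
  · simp only [LinearMap.comp_apply, LinearMap.zero_apply]
    rw [D1, D_mul, Dz, D1]; noncomm_ring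
  · simp only [LinearMap.comp_apply, LinearMap.zero_apply]
    rw [D2, map_neg, D_mul, Dz, D2]
    have := two (z * z * t2)
    linear_combination (norm := noncomm_ring) this
  · simp only [LinearMap.comp_apply, LinearMap.zero_apply]
    rw [D3, map_neg, D_mul, D1, D4]; noncomm_ring
  · simp only [LinearMap.comp_apply, LinearMap.zero_apply]
    rw [D4, map_neg, D_mul, Dz, D4]
    have := two (z * z * s)
    linear_combination (norm := noncomm_ring) this

noncomputable def b : F := t1 * t2 + 1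
noncomputable def a : F := b * t3 + t1

theorem Db : D b = 0 := by
  rw [b, map_add, D_mul, D_one, D1, D2]; noncomm_ring

theorem Da : D a = 0 := by
  rw [a, map_add, D_mul, Db, D1, D3, b, z]; noncomm_ring

noncomputable def p : F := D ((1 + t2 * t1) * t3)
noncomputable def r : F := D ((t3 * (1 + t2 * t1) + t1) * t3)

theorem ap : a * p = b * r := by
  have e : a * ((1 + t2 * t1) * t3) = b * ((t3 * (1 + t2 * t1) + t1) * t3) := by
    rw [a, b]; noncomm_ring
  have := congrArg D e
  rw [D_mul a, D_mul b, Da, Db, zero_mul, zero_mul, add_zero, add_zero] at this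
  exact this

abbrev R : Type := MvPolynomial (Fin 2) k2
abbrev K : Type := FractionRing R

noncomputable def xA : K := algebraMap R K (MvPolynomial.X 0)
noncomputable def xB : K := algebraMap R K (MvPolynomial.X 1)

theorem xA0 : xA ≠ 0 := by
  rw [xA, ne_eq, FaithfulSMul.algebraMap_eq_zero_iff]; exact MvPolynomial.X_ne_zero _
theorem xB0 : xB ≠ 0 := by
  rw [xB, ne_eq, FaithfulSMul.algebraMap_eq_zero_iff]; exact MvPolynomial.X_ne_zero _
theorem xA1 : xA ≠ 1 := by
  intro h
  have h1 : (MvPolynomial.X 0 : R) = 1 := by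
    apply IsFractionRing.injective R K
    rw [map_one]; exact h
  have := congrArg (MvPolynomial.aeval (R := k2) (fun _ : Fin 2 => (0 : k2))) h1
  simp at this

noncomputable def al : F →ₐ[k2] K := FreeAlgebra.lift k2 ![xA, (xB - 1) / xA, 0, 0]
noncomputable def be : F →ₐ[k2] K := FreeAlgebra.lift k2 ![1, xB - 1, (xA - 1) / xB, 0]

theorem al1 : al t1 = xA := by simp [al, t1]
theorem al2 : al t2 = (xB - 1) / xA := by simp [al, t2]
theorem al3 : al t3 = 0 := by simp [al, t3]
theorem al4 : al s = 0 := by simp [al, s]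
theorem be1 : be t1 = 1 := by simp [be, t1]
theorem be2 : be t2 = xB - 1 := by simp [be, t2]
theorem be3 : be t3 = (xA - 1) / xB := by simp [be, t3]
theorem be4 : be s = 0 := by simp [be, s]

theorem killD (γ : F →ₐ[k2] K) (h : γ s = 0) (f : F) : γ (D f) = 0 := by
  have h1 : IsDer γ γ (γ.toLinearMap ∘ₗ D) := fun f g => by simp [D_mul]
  refine h1.ext (isDer_zero _ _)
    (gens (P := fun f => (γ.toLinearMap ∘ₗ D) f = (0 : F →ₗ[k2] K) f) ?_ ?_ ?_ ?_) f
  · simp [D1, z, h]
  · simp [D2, z, h]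
  · simp [D3, h]
  · simp [D4, h]

theorem exd : ∃ δ : F →ₗ[k2] K, ∀ f, δ (D f) = al f - be f := by
  obtain ⟨δ, hδ, hx⟩ := exists_der al be ![0, 0, 0, (xA - 1) / (xA * xB)]
  have d1 : δ t1 = 0 := hx 0
  have d2 : δ t2 = 0 := hx 1
  have d4 : δ s = (xA - 1) / (xA * xB) := hx 3
  have hA := xA0
  have hB := xB0
  have az : al z = 0 := by simp [z, al4]
  have bz : be z = 0 := by simp [z, be4]
  have dz : δ z = (xA - 1) / xA := by
    rw [z, hδ, d4, be4, map_add, map_mul, map_one, al1, al2]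
    field_simp
    ring
  refine ⟨δ, fun f => ?_⟩
  have h1 : IsDer al be (δ ∘ₗ D) := fun f g => by
    simp only [LinearMap.comp_apply, D_mul, map_add, hδ _ _, killD al al4, killD be be4]
    ring
  have h2 : IsDer al be (al.toLinearMap - be.toLinearMap) := fun f g => by
    simp only [LinearMap.sub_apply, AlgHom.toLinearMap_apply, map_mul]
    ring
  refine h1.ext h2
    (gens (P := fun f => (δ ∘ₗ D) f = (al.toLinearMap - be.toLinearMap) f) ?_ ?_ ?_ ?_) f
  · simp only [LinearMap.comp_apply, LinearMap.sub_apply, AlgHom.toLinearMap_apply]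
    rw [D1, hδ, dz, d1, al1, be1]; field_simp; ring
  · simp only [LinearMap.comp_apply, LinearMap.sub_apply, AlgHom.toLinearMap_apply]
    rw [D2, map_neg, hδ, dz, d2, al2, be2]; field_simp; ring
  · simp only [LinearMap.comp_apply, LinearMap.sub_apply, AlgHom.toLinearMap_apply]
    rw [D3, map_neg, hδ, d1, d4, al1, al3, be3]; field_simp; ring
  · simp only [LinearMap.comp_apply, LinearMap.sub_apply, AlgHom.toLinearMap_apply]
    rw [D4, map_neg, hδ, az, al4, be4]; ring

theorem p_ne : p ≠ 0 := by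
  obtain ⟨δ, hδ⟩ := exd
  intro h
  have := hδ ((1 + t2 * t1) * t3)
  rw [show D ((1 + t2 * t1) * t3) = p from rfl, h, map_zero] at this
  simp only [map_mul, map_add, map_one, al3, be1, be2, be3] at this
  have hB := xB0
  have e : (1 + (xB - 1) * 1) * ((xA - 1) / xB) = xA - 1 := by field_simp; ring
  rw [e] at this
  apply xA1
  linear_combination this

/-- elements whose denominator is a power of `x` -/
def Loc (x : R) : Subalgebra k2 K where
  carrier := {w | ∃ (n : ℕ) (g : R), algebraMap R K x ^ n * w = algebraMap R K g}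
  mul_mem' := by
    rintro u v ⟨n, g, hg⟩ ⟨m, h, hh⟩
    exact ⟨n + m, g * h, by rw [map_mul, ← hg, ← hh]; ring⟩
  add_mem' := by
    rintro u v ⟨n, g, hg⟩ ⟨m, h, hh⟩
    exact ⟨n + m, x ^ m * g + x ^ n * h, by
      rw [map_add, map_mul, map_mul, map_pow, map_pow, ← hg, ← hh]; ring⟩
  algebraMap_mem' := fun c => ⟨0, algebraMap k2 R c, by
    rw [pow_zero, one_mul, ← IsScalarTower.algebraMap_apply]⟩

theorem mem_of_gens (γ : F →ₐ[k2] K) (S : Subalgebra k2 K)
    (h : ∀ x, γ (FreeAlgebra.ι k2 x) ∈ S) (f : F) : γ f ∈ S := by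
  induction f using FreeAlgebra.induction with
  | grade0 c => rw [AlgHom.commutes]; exact S.algebraMap_mem c
  | grade1 x => exact h x
  | mul a b ha hb => rw [map_mul]; exact S.mul_mem ha hb
  | add a b ha hb => rw [map_add]; exact S.add_mem ha hb

theorem al_mem (f : F) : al f ∈ Loc (MvPolynomial.X 0) := by
  refine mem_of_gens _ _ (gens (P := fun f => al f ∈ Loc (MvPolynomial.X 0)) ?_ ?_ ?_ ?_) f
  · exact ⟨0, MvPolynomial.X 0, by rw [al1, pow_zero, one_mul]; rfl⟩
  · refine ⟨1, MvPolynomial.X 1 - 1, ?_⟩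
    have hA := xA0
    rw [al2, map_sub, map_one]
    show xA ^ 1 * _ = xB - 1
    field_simp
  · rw [al3]; exact zero_mem _
  · rw [al4]; exact zero_mem _

theorem be_mem (f : F) : be f ∈ Loc (MvPolynomial.X 1) := by
  refine mem_of_gens _ _ (gens (P := fun f => be f ∈ Loc (MvPolynomial.X 1)) ?_ ?_ ?_ ?_) f
  · rw [be1]; exact one_mem _
  · exact ⟨0, MvPolynomial.X 1 - 1, by rw [be2, pow_zero, one_mul, map_sub, map_one]; rfl⟩
  · refine ⟨1, MvPolynomial.X 0 - 1, ?_⟩
    have hB := xB0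
    rw [be3, map_sub, map_one]
    show xB ^ 1 * _ = xA - 1
    field_simp
  · rw [be4]; exact zero_mem _

theorem hartogs (f : F) (hf : D f = 0) : ∃ g : R, algebraMap R K g = al f := by
  obtain ⟨δ, hδ⟩ := exd
  have e : al f = be f := by
    have := hδ f
    rw [hf, map_zero] at this
    exact (sub_eq_zero.1 this.symm)
  obtain ⟨n, g, hg⟩ := al_mem f
  obtain ⟨m, h, hh⟩ := be_mem f
  rw [← e] at hh
  have e2 : (MvPolynomial.X 1 : R) ^ m * g = MvPolynomial.X 0 ^ n * h := by
    apply IsFractionRing.injective R K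
    rw [map_mul, map_mul, map_pow, map_pow, ← hg, ← hh]; ring
  have hp : Prime (MvPolynomial.X 0 : R) := MvPolynomial.X_prime
  have hnd : ¬ (MvPolynomial.X 0 : R) ∣ MvPolynomial.X 1 ^ m := fun hd => by
    have := MvPolynomial.X_dvd_X.1 (hp.dvd_of_dvd_pow hd)
    exact absurd this (by decide)
  obtain ⟨g', hg'⟩ := hp.pow_dvd_of_dvd_mul_left n hnd ⟨h, e2⟩
  refine ⟨g', ?_⟩
  have hA : algebraMap R K (MvPolynomial.X 0) ^ n ≠ 0 := pow_ne_zero _ xA0
  apply mul_left_cancel₀ hA
  rw [hg, hg', map_mul, map_pow]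

theorem al_b : al b = xB := by
  have hA := xA0
  rw [b, map_add, map_mul, map_one, al1, al2]; field_simp; ring

theorem al_a : al a = xA := by
  rw [a, map_add, map_mul, al1, al3]; ring

theorem not_free (Y : Type) (f : FreeAlgebra k2 Y →ₐ[k2] F) (hf : Function.Injective f)
    (hr : ∀ x, x ∈ Set.range f ↔ D x = 0) : False := by
  have hy : ∀ y, ∃ g : R, algebraMap R K g = al (f (FreeAlgebra.ι k2 y)) := fun y =>
    hartogs _ ((hr _).1 ⟨_, rfl⟩)
  choose g hg using hy
  let ψ : FreeAlgebra k2 Y →ₐ[k2] R := FreeAlgebra.lift k2 g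
  have hψ : ∀ x, algebraMap R K (ψ x) = al (f x) := by
    intro x
    have : (IsScalarTower.toAlgHom k2 R K).comp ψ = al.comp f := by
      ext y
      simp [ψ, hg]
    exact DFunLike.congr_fun this x
  obtain ⟨a', ha⟩ := (hr a).2 Da
  obtain ⟨b', hb⟩ := (hr b).2 Db
  obtain ⟨p', hp⟩ := (hr p).2 (DD _)
  obtain ⟨r', hr'⟩ := (hr r).2 (DD _)
  have h0 : p' = 0 := by
    refine indep ψ a' b' p' r' ?_ ?_ ?_
    · apply IsFractionRing.injective R K
      rw [hψ, ha, al_a]; rfl
    · apply IsFractionRing.injective R K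
      rw [hψ, hb, al_b]; rfl
    · apply hf
      rw [map_mul, map_mul, ha, hb, hp, hr', ap]
  apply p_ne
  rw [← hp, h0, map_zero]

end Ex

end Pool.Agent.H.MP_afddf0_al
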